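import Mathlib

open Polynomial

namespace Pool.Agent.Results.MP_1c7d4c_an.CondANotD

/-!
A monic polynomial `Q` of degree `32` with simple zeros in `[-1,1]`, symmetric about the origin,
with `|Q^{(k)}(x)| ≤ Q^{(k)}(1)` on `(-1,1)` for all `k = 0, …, 32` (condition (a)), but
`|Q(i/30)| > |Q(1 + i/30)|`, so that `Q` does not have property (D):
`Q(x) = (x² - 13/2000)(x² - 121/2000) ∏_{j=1264}^{1277} (x² - j/2000)`.

The inequalities in (a) are checked by exact natural number arithmetic on subintervals of `[0,1]`.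
-/

/-! ### coefficient lists, each coefficient given as a difference of two naturals -/

/-- evaluation barrier for kernel computations: `fN n k = k n` -/
def fN {α : Type} (n : ℕ) (k : ℕ → α) : α := Nat.rec (k 0) (fun m _ => k (Nat.succ m)) n

@[simp] lemma fN_eq {α : Type} (n : ℕ) (k : ℕ → α) : fN n k = k n := by
  cases n <;> rfl

/-- value of the polynomial with coefficient list `l` -/
def ev : List (ℕ × ℕ) → ℝ → ℝ
  | [], _ => 0
  | (a, b) :: l, x => ((a:ℝ) - b) + x * ev l x

/-- the polynomial with coefficient list `l` -/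
noncomputable def toP : List (ℕ × ℕ) → ℝ[X]
  | [] => 0
  | (a, b) :: l => C ((a:ℝ) - b) + X * toP l

lemma eval_toP (l : List (ℕ × ℕ)) (x : ℝ) : (toP l).eval x = ev l x := by
  induction l with
  | nil => simp [toP, ev]
  | cons c l ih => simp [toP, ev, ih]

def addL : List (ℕ × ℕ) → List (ℕ × ℕ) → List (ℕ × ℕ)
  | [], l => l
  | (a, b) :: l, [] => (a, b) :: l
  | (a, b) :: l, (c, d) :: m => fN (Nat.add a c) fun u => fN (Nat.add b d) fun v => (u, v) :: addL l m

lemma toP_addL (l m : List (ℕ × ℕ)) : toP (addL l m) = toP l + toP m := by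
  induction l generalizing m with
  | nil => simp [addL, toP]
  | cons a l ih =>
    obtain ⟨a, b⟩ := a
    cases m with
    | nil => simp [addL, toP]
    | cons c m =>
      obtain ⟨c, d⟩ := c
      simp only [addL, fN_eq, toP, ih, Nat.add_eq, Nat.cast_add]
      simp only [map_add, map_sub]; ring

/-- multiplication by the constant `r` -/
def mulC (r : ℕ) : List (ℕ × ℕ) → List (ℕ × ℕ)
  | [] => []
  | (a, b) :: l => fN (Nat.mul r a) fun u => fN (Nat.mul r b) fun v => (u, v) :: mulC r l

lemma toP_mulC (r : ℕ) (l : List (ℕ × ℕ)) : toP (mulC r l) = C (r : ℝ) * toP l := by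
  induction l with
  | nil => simp [mulC, toP]
  | cons c l ih =>
    obtain ⟨a, b⟩ := c
    simp only [mulC, fN_eq, toP, ih, Nat.mul_eq, Nat.cast_mul]
    simp only [map_mul, map_sub]; ring

/-- multiplication by the constant `-r` -/
def mulCn (r : ℕ) : List (ℕ × ℕ) → List (ℕ × ℕ)
  | [] => []
  | (a, b) :: l => fN (Nat.mul r a) fun u => fN (Nat.mul r b) fun v => (v, u) :: mulCn r l

lemma toP_mulCn (r : ℕ) (l : List (ℕ × ℕ)) : toP (mulCn r l) = - C (r : ℝ) * toP l := by
  induction l with
  | nil => simp [mulCn, toP]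
  | cons c l ih =>
    obtain ⟨a, b⟩ := c
    simp only [mulCn, fN_eq, toP, ih, Nat.mul_eq, Nat.cast_mul]
    simp only [map_mul, map_sub]; ring

def derL : List (ℕ × ℕ) → List (ℕ × ℕ)
  | [] => []
  | _ :: l => addL l ((0, 0) :: derL l)

lemma toP_derL (l : List (ℕ × ℕ)) : toP (derL l) = derivative (toP l) := by
  induction l with
  | nil => simp [derL, toP]
  | cons c l ih => simp [derL, toP, toP_addL, ih]

/-- coefficients of `(A + W t) l(t) + W (p - n)` -/
def mulLin (A W : ℕ) : ℕ → ℕ → List (ℕ × ℕ) → List (ℕ × ℕ)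
  | p, n, [] => [(Nat.mul W p, Nat.mul W n)]
  | p, n, (a, b) :: l => fN (Nat.add (Nat.mul A a) (Nat.mul W p)) fun u =>
      fN (Nat.add (Nat.mul A b) (Nat.mul W n)) fun v => (u, v) :: mulLin A W a b l

/-- coefficients of `(A - W t) l(t) - W (p - n)` -/
def mulLinN (A W : ℕ) : ℕ → ℕ → List (ℕ × ℕ) → List (ℕ × ℕ)
  | p, n, [] => [(Nat.mul W n, Nat.mul W p)]
  | p, n, (a, b) :: l => fN (Nat.add (Nat.mul A a) (Nat.mul W n)) fun u =>
      fN (Nat.add (Nat.mul A b) (Nat.mul W p)) fun v => (u, v) :: mulLinN A W a b l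

def addHead (a b : ℕ) : List (ℕ × ℕ) → List (ℕ × ℕ)
  | [] => [(a, b)]
  | (c, d) :: l => fN (Nat.add a c) fun u => fN (Nat.add b d) fun v => (u, v) :: l

/-- coefficients of `t ↦ l (A + W t)` -/
def comp (A W : ℕ) : List (ℕ × ℕ) → List (ℕ × ℕ)
  | [] => []
  | (a, b) :: l => addHead a b (mulLin A W 0 0 (comp A W l))

/-- coefficients of `t ↦ l (A - W t)` -/
def compN (A W : ℕ) : List (ℕ × ℕ) → List (ℕ × ℕ)
  | [] => []
  | (a, b) :: l => addHead a b (mulLinN A W 0 0 (compN A W l))

lemma ev_mulLin (A W : ℕ) (l : List (ℕ × ℕ)) (x : ℝ) : ∀ p n : ℕ,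
    ev (mulLin A W p n l) x = W * ((p:ℝ) - n) + (A + W * x) * ev l x := by
  induction l with
  | nil => intro p n; simp [mulLin, ev]; ring
  | cons c l ih =>
    intro p n
    obtain ⟨a, b⟩ := c
    simp only [mulLin, fN_eq, ev, ih, Nat.add_eq, Nat.mul_eq]
    push_cast; ring

lemma ev_mulLinN (A W : ℕ) (l : List (ℕ × ℕ)) (x : ℝ) : ∀ p n : ℕ,
    ev (mulLinN A W p n l) x = - (W * ((p:ℝ) - n)) + (A - W * x) * ev l x := by
  induction l with
  | nil => intro p n; simp [mulLinN, ev]; ring
  | cons c l ih =>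
    intro p n
    obtain ⟨a, b⟩ := c
    simp only [mulLinN, fN_eq, ev, ih, Nat.add_eq, Nat.mul_eq]
    push_cast; ring

lemma ev_addHead (a b : ℕ) (l : List (ℕ × ℕ)) (x : ℝ) :
    ev (addHead a b l) x = ((a:ℝ) - b) + ev l x := by
  rcases l with _ | ⟨⟨c, d⟩, l⟩
  · simp [addHead, ev]
  · simp only [addHead, fN_eq, ev, Nat.add_eq]; push_cast; ring

lemma ev_comp (A W : ℕ) (l : List (ℕ × ℕ)) (t : ℝ) : ev (comp A W l) t = ev l (A + W * t) := by
  induction l with
  | nil => simp [comp, ev]
  | cons c l ih =>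
    obtain ⟨a, b⟩ := c
    simp only [comp, ev_addHead, ev_mulLin, ev, ih]
    push_cast; ring

lemma ev_compN (A W : ℕ) (l : List (ℕ × ℕ)) (t : ℝ) : ev (compN A W l) t = ev l (A - W * t) := by
  induction l with
  | nil => simp [compN, ev]
  | cons c l ih =>
    obtain ⟨a, b⟩ := c
    simp only [compN, ev_addHead, ev_mulLinN, ev, ih]
    push_cast; ring

/-- upper bound on `[0,1]` -/
def hp : List (ℕ × ℕ) → ℕ
  | [] => 0
  | (a, b) :: l => (a + hp l) - b

/-- upper bound of the negative on `[0,1]` -/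
def hm : List (ℕ × ℕ) → ℕ
  | [] => 0
  | (a, b) :: l => (b + hm l) - a

lemma ev_le_hp (l : List (ℕ × ℕ)) (t : ℝ) (h0 : 0 ≤ t) (h1 : t ≤ 1) : ev l t ≤ hp l := by
  induction l with
  | nil => simp [ev, hp]
  | cons c l ih =>
    obtain ⟨a, b⟩ := c
    simp only [ev, hp]
    have h2 : (a:ℝ) + hp l - b ≤ ((a + hp l - b : ℕ) : ℝ) := by
      have : (a + hp l : ℕ) ≤ (a + hp l - b : ℕ) + b := by omega
      have : ((a + hp l : ℕ) : ℝ) ≤ ((a + hp l - b : ℕ) : ℝ) + b := by exact_mod_cast this
      push_cast at this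
      linarith
    have h3 : (0:ℝ) ≤ hp l := Nat.cast_nonneg _
    have h4 : t * ev l t ≤ hp l := by
      calc t * ev l t ≤ t * hp l := mul_le_mul_of_nonneg_left ih h0
        _ ≤ 1 * hp l := mul_le_mul_of_nonneg_right h1 h3
        _ = _ := one_mul _
    linarith

lemma neg_ev_le_hm (l : List (ℕ × ℕ)) (t : ℝ) (h0 : 0 ≤ t) (h1 : t ≤ 1) : -ev l t ≤ hm l := by
  induction l with
  | nil => simp [ev, hm]
  | cons c l ih =>
    obtain ⟨a, b⟩ := c
    simp only [ev, hm]
    have h2 : (b:ℝ) + hm l - a ≤ ((b + hm l - a : ℕ) : ℝ) := by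
      have : (b + hm l : ℕ) ≤ (b + hm l - a : ℕ) + a := by omega
      have : ((b + hm l : ℕ) : ℝ) ≤ ((b + hm l - a : ℕ) : ℝ) + a := by exact_mod_cast this
      push_cast at this
      linarith
    have h3 : (0:ℝ) ≤ hm l := Nat.cast_nonneg _
    have h4 : -(t * ev l t) ≤ hm l := by
      calc -(t * ev l t) = t * (-ev l t) := by ring
        _ ≤ t * hm l := mul_le_mul_of_nonneg_left ih h0
        _ ≤ 1 * hm l := mul_le_mul_of_nonneg_right h1 h3
        _ = _ := one_mul _
    linarith

def rngK {α : Type} : List (ℕ × ℕ) → (ℕ → ℕ → α) → α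
  | [], k => k 0 0
  | (a, b) :: l, k => rngK l fun h m => fN (Nat.sub (Nat.add a h) b) fun h' =>
      fN (Nat.sub (Nat.add b m) a) fun m' => k h' m'

@[simp] lemma rngK_eq {α : Type} (l : List (ℕ × ℕ)) : ∀ k : ℕ → ℕ → α,
    rngK l k = k (hp l) (hm l) := by
  induction l with
  | nil => intro k; rfl
  | cons c l ih => intro k; obtain ⟨a, b⟩ := c; simp [rngK, ih, hp, hm]

/-- check of `|l| ≤ B` on `[A, A+W]` -/
def okCell (l : List (ℕ × ℕ)) (B A W : ℕ) : Bool :=
  rngK (comp A W l) fun h m => Nat.ble h B && Nat.ble m B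

/-- check of `|l| ≤ l(D)` on `[D - W, D]` -/
def okLast (l : List (ℕ × ℕ)) (B D W : ℕ) : Bool :=
  match compN D W l with
  | [] => true
  | (c, d) :: m => rngK m fun h m' => Nat.beq c (Nat.add B d) && Nat.beq h 0 &&
      Nat.ble (Nat.sub (Nat.add d m') c) B

def okAll (l : List (ℕ × ℕ)) (B D : ℕ) : ℕ → List ℕ → Bool
  | A, [] => Nat.blt A D && okLast l B D (Nat.sub D A)
  | A, W :: ws => Nat.blt 0 W && okCell l B A W && fN (Nat.add A W) fun A' => okAll l B D A' ws

lemma okCell_sound {l : List (ℕ × ℕ)} {B A W : ℕ} (h : okCell l B A W = true) (hW : 0 < W) (y : ℝ)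
    (h0 : (A:ℝ) ≤ y) (h1 : y ≤ A + W) : |ev l y| ≤ B := by
  simp only [okCell, rngK_eq, Bool.and_eq_true, Nat.ble_eq] at h
  have hW' : (0:ℝ) < W := by exact_mod_cast hW
  have ht0 : 0 ≤ (y - A) / W := div_nonneg (by linarith) hW'.le
  have ht1 : (y - A) / W ≤ 1 := by rw [div_le_one hW']; linarith
  have e : ev (comp A W l) ((y - A) / W) = ev l y := by
    rw [ev_comp]; congr 1; field_simp; ring
  have h2 := ev_le_hp (comp A W l) _ ht0 ht1
  have h3 := neg_ev_le_hm (comp A W l) _ ht0 ht1
  rw [e] at h2 h3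
  have h4 : (hp (comp A W l) : ℝ) ≤ B := by exact_mod_cast h.1
  have h5 : (hm (comp A W l) : ℝ) ≤ B := by exact_mod_cast h.2
  rw [abs_le]; constructor <;> linarith

lemma okLast_sound {l : List (ℕ × ℕ)} {B D W : ℕ} (h : okLast l B D W = true) (hW : 0 < W)
    (y : ℝ) (h0 : (D:ℝ) - W ≤ y) (h1 : y ≤ D) : |ev l y| ≤ B := by
  have hW' : (0:ℝ) < W := by exact_mod_cast hW
  have ht0 : 0 ≤ (D - y) / W := div_nonneg (by linarith) hW'.le
  have ht1 : (D - y) / W ≤ 1 := by rw [div_le_one hW']; linarith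
  have e : ev (compN D W l) ((D - y) / W) = ev l y := by
    rw [ev_compN]; congr 1; field_simp; ring
  unfold okLast at h
  rcases hc : compN D W l with _ | ⟨⟨c, d⟩, m⟩
  · rw [hc] at e; simp only [ev] at e; rw [← e, abs_zero]; exact Nat.cast_nonneg _
  · rw [hc] at h e
    simp only [rngK_eq, Bool.and_eq_true, Nat.ble_eq, Nat.beq_eq] at h
    obtain ⟨⟨h2, h3⟩, h4⟩ := h
    have h5 := neg_ev_le_hm ((c, d) :: m) _ ht0 ht1
    have h6 := ev_le_hp m _ ht0 ht1
    rw [e] at h5
    simp only [ev] at e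
    have h7 : (hp m : ℝ) = 0 := by exact_mod_cast h3
    have h8 : (hm ((c, d) :: m) : ℝ) ≤ B := by
      have : hm ((c, d) :: m) ≤ B := h4
      exact_mod_cast this
    have h9 : (c:ℝ) = B + d := by
      have : c = B + d := h2
      exact_mod_cast this
    rw [abs_le]
    constructor
    · linarith
    · rw [← e, h9]
      rw [h7] at h6
      have := mul_nonneg ht0 (sub_nonneg.mpr h6)
      linarith

lemma okAll_sound {l : List (ℕ × ℕ)} {B D : ℕ} (ws : List ℕ) : ∀ {A : ℕ},
    okAll l B D A ws = true → ∀ y : ℝ, (A:ℝ) ≤ y → y ≤ D → |ev l y| ≤ B := by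
  induction ws with
  | nil =>
    intro A h y h0 h1
    simp only [okAll, Bool.and_eq_true, Nat.blt_eq] at h
    refine okLast_sound h.2 (Nat.sub_pos_of_lt h.1) y ?_ h1
    show (D:ℝ) - ((D - A : ℕ) : ℝ) ≤ y
    rw [Nat.cast_sub h.1.le]
    linarith
  | cons W ws ih =>
    intro A h y h0 h1
    simp only [okAll, fN_eq, Bool.and_eq_true, Nat.blt_eq] at h
    obtain ⟨⟨h2, h3⟩, h4⟩ := h
    by_cases hy : y ≤ A + W
    · exact okCell_sound h3 h2 y h0 hy
    · push Not at hy
      exact ih h4 y (by simp only [Nat.add_eq]; push_cast; linarith) h1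

/-- evaluation at `D`, positive part -/
def evF (D : ℕ) : List (ℕ × ℕ) → ℕ
  | [] => 0
  | (a, _) :: l => fN (evF D l) fun v => Nat.add a (Nat.mul D v)

/-- evaluation at `D`, negative part -/
def evS (D : ℕ) : List (ℕ × ℕ) → ℕ
  | [] => 0
  | (_, b) :: l => fN (evS D l) fun v => Nat.add b (Nat.mul D v)

lemma ev_eq (D : ℕ) (l : List (ℕ × ℕ)) : ev l D = (evF D l : ℝ) - evS D l := by
  induction l with
  | nil => simp [evF, evS, ev]
  | cons c l ih =>
    obtain ⟨a, b⟩ := c
    simp only [ev, ih, evF, evS, fN_eq, Nat.add_eq, Nat.mul_eq]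
    push_cast; ring

/-- evaluation barrier for lists -/
def forceL {α : Type} : List (ℕ × ℕ) → (List (ℕ × ℕ) → α) → α
  | [], k => k []
  | (a, b) :: l, k => fN a fun a' => fN b fun b' => forceL l fun l' => k ((a', b') :: l')

@[simp] lemma forceL_eq {α : Type} (l : List (ℕ × ℕ)) : ∀ k : List (ℕ × ℕ) → α,
    forceL l k = k l := by
  induction l with
  | nil => intro k; rfl
  | cons c l ih => intro k; obtain ⟨a, b⟩ := c; simp [forceL, ih]

def chk (D : ℕ) : List (ℕ × ℕ) → List (List ℕ) → Bool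
  | _, [] => true
  | l, ws :: r => fN (evF D l) fun u => fN (evS D l) fun v => Nat.ble v u &&
      fN (Nat.sub u v) fun B => okAll l B D 0 ws && forceL (derL l) fun l' => chk D l' r

lemma chk_sound {D : ℕ} (r : List (List ℕ)) : ∀ {l : List (ℕ × ℕ)}, chk D l r = true →
    ∀ k < r.length, ∀ y : ℝ, 0 ≤ y → y ≤ D →
      |(derivative^[k] (toP l)).eval y| ≤ (derivative^[k] (toP l)).eval (D:ℝ) := by
  induction r with
  | nil => intro l _ k hk; simp at hk
  | cons ws r ih =>
    intro l h k hk y h0 h1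
    simp only [chk, fN_eq, forceL_eq, Bool.and_eq_true, Nat.ble_eq] at h
    obtain ⟨h2, h3, h4⟩ := h
    cases k with
    | zero =>
      simp only [Function.iterate_zero, id_eq]
      rw [eval_toP, eval_toP, ev_eq]
      have h5 := okAll_sound ws h3 y (by simpa using h0) h1
      have h6 : (((evF D l).sub (evS D l) : ℕ) : ℝ) = (evF D l : ℝ) - evS D l := by
        show ((evF D l - evS D l : ℕ) : ℝ) = _
        rw [Nat.cast_sub h2]
      rwa [h6] at h5
    | succ k =>
      rw [Function.iterate_succ, Function.comp_apply, ← toP_derL]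
      exact ih h4 k (by simpa using hk) y h0 h1

/-! ### the example -/

def az : List ℕ := [13, 121, 1264, 1265, 1266, 1267, 1268, 1269, 1270, 1271, 1272, 1273, 1274,
  1275, 1276, 1277]

def mulQ (a : ℕ) (l : List (ℕ × ℕ)) : List (ℕ × ℕ) :=
  forceL l fun l => addL (mulCn (Nat.mul a 16384) l) ((0, 0) :: (0, 0) :: mulC 2000 l)

lemma toP_mulQ (a : ℕ) (l : List (ℕ × ℕ)) :
    toP (mulQ a l) = (C 2000 * X ^ 2 - C ((a:ℝ) * 128 ^ 2)) * toP l := by
  simp only [mulQ, forceL_eq, toP_addL, toP_mulC, toP_mulCn, toP, Nat.mul_eq]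
  push_cast
  simp only [map_mul, map_zero, sub_self, zero_add]
  norm_num
  ring

def L0 : List (ℕ × ℕ) := az.foldr mulQ [(1, 0)]

lemma toP_foldr (l : List ℕ) : toP (l.foldr mulQ [(1, 0)])
    = (l.map fun a : ℕ => (C 2000 * X ^ 2 - C ((a:ℝ) * 128 ^ 2) : ℝ[X])).prod := by
  induction l with
  | nil => simp [toP]
  | cons a l ih => simp [toP_mulQ, ih]

def L1 : List (ℕ × ℕ) := [(1210772415101115563953540938306351028989829557709252207589360929086206115990798610801023485087931722234100449280000, 0), (0, 0), (0, 14219324014835846286399505213413114831924189629266563995927219680869876528076346464561681917666303390882201600000), (0, 0), (29423112739242238617319236335649577706110626801350893098172081116947685295086030133212230899899259944960000000, 0), (0, 0), (0, 26396507389611801679016258390065960127922803202050133586925553160101605398796209895909528948441088000000000), (0, 0), (13803866477357048489536032024927344590327928972463816330976592083629005884886853661484908544000000000000, 0),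 (0, 0), (0, 4797105185356466715151136993796455590008736968894560969561620320813288929358648442880000000000000000), (0, 0), (1187724174869360986216282022246064373164229172971473668953870696947134255595520000000000000000000, 0), (0, 0), (0, 218084774886565331014793390168578775278737495189489966513519472909746176000000000000000000000), (0, 0), (30391134913185802379890356166326179178256991572155582802819022848000000000000000000000000, 0), (0, 0), (0, 3251884686730218150242009726719511816144054532533009776640000000000000000000000000000), (0, 0), (267830977146858690968654159214694142491254199418880000000000000000000000000000000, 0), (0, 0), (0, 16871588822322581886390362003422633246326784000000000000000000000000000000000), (0, 0), (799378536123351370911776894533763072000000000000000000000000000000000000, 0), (0, 0), (0, 27605329980206163885429882880000000000000000000000000000000000000000), (0, 0), (656515798097608048640000000000000000000000000000000000000000000, 0), (0, 0), (0, 9621263613952000000000000000000000000000000000000000000000),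 (0, 0), (65536000000000000000000000000000000000000000000000000, 0)]

def derN : ℕ → List (ℕ × ℕ) → List (ℕ × ℕ)
  | 0, l => l
  | n+1, l => forceL l fun l' => derN n (derL l')
set_option maxRecDepth 100000 in
lemma t_0 : (forceL (derN 0 L1) fun l => chk 128 l [[13, 4, 2, 2, 13, 5, 3, 4, 17, 25, 35, 4]]) = true := by decide +kernel

set_option maxRecDepth 100000 in
lemma t_1 : (forceL (derN 1 L1) fun l => chk 128 l [[22, 22, 26, 33, 24], [31, 31, 36, 29], [39, 38, 41, 9]]) = true := by decide +kernel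

set_option maxRecDepth 100000 in
lemma t_4 : (forceL (derN 4 L1) fun l => chk 128 l [[45, 44, 38], [51, 49, 27], [57, 52, 18], [62, 54, 11]]) = true := by decide +kernel

set_option maxRecDepth 100000 in
lemma t_8 : (forceL (derN 8 L1) fun l => chk 128 l [[66, 55, 6], [71, 54], [76, 51], [80, 47]]) = true := by decide +kernel

set_option maxRecDepth 100000 in
lemma t_12 : (forceL (derN 12 L1) fun l => chk 128 l [[84, 43], [88, 39], [92, 35], [96, 31]]) = true := by decide +kernel

set_option maxRecDepth 100000 in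
lemma t_16 : (forceL (derN 16 L1) fun l => chk 128 l [[101, 26], [104, 23], [107, 20], [112, 15]]) = true := by decide +kernel

set_option maxRecDepth 100000 in
lemma t_20 : (forceL (derN 20 L1) fun l => chk 128 l [[114], [117], [121], [126]]) = true := by decide +kernel

set_option maxRecDepth 100000 in
lemma t_24 : (forceL (derN 24 L1) fun l => chk 128 l [[127], [127], [127], [127], [127], [127], [127], [], []]) = true := by decide +kernel


lemma toP_derN (n : ℕ) : ∀ l, toP (derN n l) = derivative^[n] (toP l) := by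
  induction n with
  | zero => intro l; rfl
  | succ n ih =>
    intro l
    simp only [derN, forceL_eq]
    rw [ih, toP_derL, Function.iterate_succ, Function.comp_apply]

lemma L1_eq : L1 = L0 := by decide +kernel

lemma H_of {a : ℕ} {r : List (List ℕ)} (h : (forceL (derN a L1) fun l => chk 128 l r) = true)
    (k : ℕ) (hk : k < r.length) (y : ℝ) (h0 : 0 ≤ y) (h1 : y ≤ 128) :
    |(derivative^[k + a] (toP L1)).eval y| ≤ (derivative^[k + a] (toP L1)).eval (128:ℝ) := by
  rw [forceL_eq] at h
  have := chk_sound (D := 128) r h k hk y h0 (by push_cast; exact h1)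
  rw [toP_derN, ← Function.iterate_add_apply] at this
  push_cast at this
  exact this

lemma H_all (k : ℕ) (hk : k < 33) (y : ℝ) (h0 : 0 ≤ y) (h1 : y ≤ 128) :
    |(derivative^[k] (toP L1)).eval y| ≤ (derivative^[k] (toP L1)).eval (128:ℝ) := by
  rcases Nat.lt_or_ge k 1 with h | h
  · have := H_of t_0 k (by simpa using h) y h0 h1
    rwa [Nat.add_zero] at this
  rcases Nat.lt_or_ge k 4 with h' | h'
  · have := H_of t_1 (k-1) (by simp; omega) y h0 h1
    rwa [Nat.sub_add_cancel h] at this
  rcases Nat.lt_or_ge k 8 with h | h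
  · have := H_of t_4 (k-4) (by simp; omega) y h0 h1
    rwa [Nat.sub_add_cancel h'] at this
  rcases Nat.lt_or_ge k 12 with h' | h'
  · have := H_of t_8 (k-8) (by simp; omega) y h0 h1
    rwa [Nat.sub_add_cancel h] at this
  rcases Nat.lt_or_ge k 16 with h | h
  · have := H_of t_12 (k-12) (by simp; omega) y h0 h1
    rwa [Nat.sub_add_cancel h'] at this
  rcases Nat.lt_or_ge k 20 with h' | h'
  · have := H_of t_16 (k-16) (by simp; omega) y h0 h1
    rwa [Nat.sub_add_cancel h] at this
  rcases Nat.lt_or_ge k 24 with h | h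
  · have := H_of t_20 (k-20) (by simp; omega) y h0 h1
    rwa [Nat.sub_add_cancel h'] at this
  · have := H_of t_24 (k-24) (by simp; omega) y h0 h1
    rwa [Nat.sub_add_cancel h] at this

/-- numerators of the squares of the positive zeros -/
def zz : Fin 16 → ℕ := ![13, 121, 1264, 1265, 1266, 1267, 1268, 1269, 1270, 1271, 1272, 1273,
  1274, 1275, 1276, 1277]

lemma zz_mono : ∀ i j : Fin 16, i < j → zz i < zz j := by decide

lemma zz_pos : ∀ i : Fin 16, 0 < zz i := by decide

lemma zz_le : ∀ i : Fin 16, zz i ≤ 2000 := by decide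

/-- the positive zeros -/
noncomputable def rt (i : Fin 16) : ℝ := Real.sqrt ((zz i : ℝ) / 2000)

lemma rt_pos (i : Fin 16) : 0 < rt i :=
  Real.sqrt_pos.mpr (div_pos (by exact_mod_cast zz_pos i) (by norm_num))

lemma rt_le (i : Fin 16) : rt i ≤ 1 := by
  unfold rt
  rw [Real.sqrt_le_iff]
  refine ⟨by norm_num, ?_⟩
  rw [one_pow, div_le_one (by norm_num)]
  exact_mod_cast zz_le i

lemma rt_lt {i j : Fin 16} (h : i < j) : rt i < rt j := by
  apply Real.sqrt_lt_sqrt (by positivity)
  apply div_lt_div_of_pos_right _ (by norm_num)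
  exact_mod_cast zz_mono i j h

lemma rt_sq (i : Fin 16) : rt i ^ 2 = (zz i : ℝ) / 2000 := Real.sq_sqrt (by positivity)

/-- the zeros -/
noncomputable def xs : Fin (16 + 16) → ℝ :=
  Fin.append (fun i => - rt (Fin.rev i)) (fun i => rt i)

lemma xs_mono : StrictMono xs := by
  intro i j
  refine Fin.addCases (motive := fun i => i < j → xs i < xs j) (fun a => ?_) (fun a => ?_) i
  · refine Fin.addCases (motive := fun j => Fin.castAdd 16 a < j → xs (Fin.castAdd 16 a) < xs j)
      (fun b => ?_) (fun b => ?_) j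
    · intro hij
      simp only [xs, Fin.append_left]
      apply neg_lt_neg
      apply rt_lt
      rw [Fin.rev_lt_rev]
      exact hij
    · intro _
      simp only [xs, Fin.append_left, Fin.append_right]
      have := rt_pos (Fin.rev a)
      have := rt_pos b
      linarith
  · refine Fin.addCases (motive := fun j => Fin.natAdd 16 a < j → xs (Fin.natAdd 16 a) < xs j)
      (fun b => ?_) (fun b => ?_) j
    · intro hij
      exfalso
      rw [Fin.lt_def] at hij
      simp only [Fin.val_natAdd, Fin.val_castAdd] at hij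
      omega
    · intro hij
      simp only [xs, Fin.append_right]
      apply rt_lt
      rw [Fin.lt_def] at hij ⊢
      simp only [Fin.val_natAdd] at hij
      omega

lemma xs_bd (j : Fin (16 + 16)) : -1 ≤ xs j ∧ xs j ≤ 1 := by
  refine Fin.addCases (fun a => ?_) (fun a => ?_) j
  · simp only [xs, Fin.append_left]
    have := rt_pos (Fin.rev a)
    have := rt_le (Fin.rev a)
    constructor <;> linarith
  · simp only [xs, Fin.append_right]
    have := rt_pos a
    have := rt_le a
    constructor <;> linarith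

lemma xs_symm (j : Fin (16 + 16)) : xs (Fin.rev j) = - xs j := by
  refine Fin.addCases (fun a => ?_) (fun a => ?_) j
  · have h : Fin.rev (Fin.castAdd 16 a) = Fin.natAdd 16 (Fin.rev a) := by
      apply Fin.ext
      simp only [Fin.val_rev, Fin.val_castAdd, Fin.val_natAdd]
      omega
    rw [h]
    simp only [xs, Fin.append_left, Fin.append_right, neg_neg]
  · have h : Fin.rev (Fin.natAdd 16 a) = Fin.castAdd 16 (Fin.rev a) := by
      apply Fin.ext
      simp only [Fin.val_rev, Fin.val_castAdd, Fin.val_natAdd]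
      omega
    rw [h]
    simp only [xs, Fin.append_left, Fin.append_right, Fin.rev_rev]

lemma prod_xs : (∏ j, (X - C (xs j)) : ℝ[X]) = ∏ i : Fin 16, (X ^ 2 - C ((zz i : ℝ) / 2000)) := by
  rw [Fin.prod_univ_add]
  simp only [xs, Fin.append_left, Fin.append_right]
  have h1 : (∏ i : Fin 16, (X - C (- rt (Fin.rev i))) : ℝ[X]) = ∏ i : Fin 16, (X - C (- rt i)) :=
    Equiv.prod_comp Fin.revPerm (fun i => (X - C (- rt i) : ℝ[X]))
  rw [h1, ← Finset.prod_mul_distrib]
  apply Finset.prod_congr rfl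
  intro i _
  rw [← rt_sq i]
  simp only [map_neg, map_pow]
  ring

/-- the polynomial -/
noncomputable def Q : ℝ[X] := ∏ j, (X - C (xs j))

lemma toP_L1 : toP L1 = C ((2000 * 128 ^ 2 : ℝ) ^ 16) * Q.comp (C (1/128 : ℝ) * X) := by
  rw [L1_eq, L0, toP_foldr]
  have h1 : az = List.ofFn zz := by decide
  rw [h1, List.map_ofFn, List.prod_ofFn, Q, prod_xs, Polynomial.prod_comp]
  have h2 : (C ((2000 * 128 ^ 2 : ℝ) ^ 16) : ℝ[X]) = ∏ _i : Fin 16, C (2000 * 128 ^ 2 : ℝ) := by
    rw [Finset.prod_const, Finset.card_univ, Fintype.card_fin, map_pow]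
  rw [h2, ← Finset.prod_mul_distrib]
  apply Finset.prod_congr rfl
  intro i _
  simp only [Function.comp_apply, sub_comp, pow_comp, X_comp, C_comp]
  have e1 : (C (2000 * 128 ^ 2 : ℝ)) * (C (1/128 : ℝ) * X) ^ 2 = C 2000 * (X : ℝ[X]) ^ 2 := by
    rw [mul_pow, ← map_pow, ← mul_assoc, ← map_mul]
    norm_num
  have e2 : (C (2000 * 128 ^ 2 : ℝ)) * C ((zz i : ℝ) / 2000) = C ((zz i : ℝ) * 128 ^ 2) := by
    rw [← map_mul]; congr 1; ring
  rw [mul_sub, e1, e2]

lemma iter_comp (r : ℝ) (k : ℕ) : ∀ p : ℝ[X], derivative^[k] (p.comp (C r * X))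
    = C (r ^ k) * (derivative^[k] p).comp (C r * X) := by
  induction k with
  | zero => intro p; simp
  | succ k ih =>
    intro p
    rw [Function.iterate_succ_apply', ih, derivative_C_mul, derivative_comp,
      Function.iterate_succ_apply', derivative_C_mul, derivative_X, pow_succ, map_mul]
    ring

lemma iter_eval (k : ℕ) (t : ℝ) : (derivative^[k] (toP L1)).eval (128 * t)
    = ((2000 * 128 ^ 2 : ℝ) ^ 16 * (1/128) ^ k) * (derivative^[k] Q).eval t := by
  rw [toP_L1, Polynomial.iterate_derivative_C_mul, iter_comp]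
  simp only [eval_mul, eval_C, eval_comp, eval_X]
  rw [show (1/128 : ℝ) * (128 * t) = t by ring]
  ring

lemma Q_even : Q.comp (C (-1 : ℝ) * X) = Q := by
  rw [Q, prod_xs, Polynomial.prod_comp]
  apply Finset.prod_congr rfl
  intro i _
  simp only [sub_comp, pow_comp, X_comp, C_comp, map_neg, map_one]
  ring

lemma cond_a (k : ℕ) (hk : k ≤ 32) (t : ℝ) (h0 : -1 < t) (h1 : t < 1) :
    |(derivative^[k] Q).eval t| ≤ (derivative^[k] Q).eval 1 := by
  have hc : (0:ℝ) < (2000 * 128 ^ 2 : ℝ) ^ 16 * (1/128) ^ k := by positivity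
  have key : ∀ s : ℝ, 0 ≤ s → s ≤ 1 →
      |(derivative^[k] Q).eval s| ≤ (derivative^[k] Q).eval 1 := by
    intro s hs0 hs1
    have h := H_all k (by omega) (128 * s) (by positivity) (by linarith)
    have e1 := iter_eval k s
    have e2 := iter_eval k 1
    rw [mul_one] at e2
    rw [e1, e2, abs_mul, abs_of_pos hc] at h
    exact le_of_mul_le_mul_left h hc
  rcases le_or_gt 0 t with h | h
  · exact key t h h1.le
  · have h2 := key (-t) (by linarith) (by linarith)
    have h3 := iter_comp (-1) k Q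
    rw [Q_even] at h3
    have h4 : (derivative^[k] Q).eval t = (-1) ^ k * (derivative^[k] Q).eval (-t) := by
      conv_lhs => rw [h3]
      simp only [eval_mul, eval_C, eval_comp, eval_X]
      rw [show (-1 : ℝ) * t = -t by ring]
    rw [h4, abs_mul, abs_pow, abs_neg, abs_one, one_pow, one_mul]
    exact h2

lemma eval_map_Q (w : ℂ) : (Q.map (algebraMap ℝ ℂ)).eval w
    = ∏ i : Fin 16, (w ^ 2 - (zz i : ℂ) / 2000) := by
  rw [Q, prod_xs, Polynomial.map_prod, eval_prod]
  apply Finset.prod_congr rfl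
  intro i _
  simp

lemma violate : ‖(Q.map (algebraMap ℝ ℂ)).eval (((1:ℝ):ℂ) + ((1/30 : ℝ):ℂ) * Complex.I)‖
    < ‖(Q.map (algebraMap ℝ ℂ)).eval (((0:ℝ):ℂ) + ((1/30 : ℝ):ℂ) * Complex.I)‖ := by
  rw [eval_map_Q, eval_map_Q]
  apply lt_of_pow_lt_pow_left₀ 2 (norm_nonneg _)
  rw [norm_prod, norm_prod, ← Finset.prod_pow, ← Finset.prod_pow]
  have h1 : ∀ i : Fin 16, ‖(((1:ℝ):ℂ) + ((1/30 : ℝ):ℂ) * Complex.I) ^ 2 - (zz i : ℂ) / 2000‖ ^ 2
      = (1 - 1/900 - (zz i : ℝ) / 2000) ^ 2 + 4/900 := by
    intro i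
    rw [← Complex.normSq_eq_norm_sq, Complex.normSq_apply]
    simp [pow_two]
    ring
  have h2 : ∀ i : Fin 16, ‖(((0:ℝ):ℂ) + ((1/30 : ℝ):ℂ) * Complex.I) ^ 2 - (zz i : ℂ) / 2000‖ ^ 2
      = (1/900 + (zz i : ℝ) / 2000) ^ 2 := by
    intro i
    rw [← Complex.normSq_eq_norm_sq, Complex.normSq_apply]
    simp [pow_two]
    ring
  simp_rw [h1, h2]
  have h3 : ∀ f : ℕ → ℝ, ∏ i, f (zz i) = (az.map f).prod := by
    intro f
    have h1 : az = List.ofFn zz := by decide
    rw [h1, List.map_ofFn, List.prod_ofFn]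
    rfl
  rw [h3 (fun z => (1 - 1/900 - (z : ℝ) / 2000) ^ 2 + 4/900),
    h3 (fun z => (1/900 + (z : ℝ) / 2000) ^ 2)]
  simp only [az, List.map_cons, List.map_nil, List.prod_cons, List.prod_nil]
  norm_num

/-- There is a monic polynomial with `32` simple zeros in `[-1,1]`, symmetric about the origin,
which satisfies condition (a) but does not have property (D). -/
theorem result : ∃ (n : ℕ) (x : Fin n → ℝ), 1 ≤ n ∧ StrictMono x ∧
    (∀ j, -1 ≤ x j ∧ x j ≤ 1) ∧ (∀ j, x (Fin.rev j) = - x j) ∧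
    (∀ k ≤ n, ∀ t : ℝ, -1 < t → t < 1 →
      |(derivative^[k] (∏ j, (X - C (x j)) : ℝ[X])).eval t|
        ≤ (derivative^[k] (∏ j, (X - C (x j)) : ℝ[X])).eval 1) ∧
    ∃ s y : ℝ, -1 ≤ s ∧ s ≤ 1 ∧
      ‖((∏ j, (X - C (x j)) : ℝ[X]).map (algebraMap ℝ ℂ)).eval ((1:ℂ) + (y:ℂ) * Complex.I)‖
        < ‖((∏ j, (X - C (x j)) : ℝ[X]).map (algebraMap ℝ ℂ)).eval ((s:ℂ) + (y:ℂ) * Complex.I)‖ := by
  refine ⟨16 + 16, xs, by norm_num, xs_mono, xs_bd, xs_symm, fun k hk t h0 h1 =>
    cond_a k hk t h0 h1, 0, 1/30, by norm_num, by norm_num, ?_⟩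
  have := violate
  rw [Complex.ofReal_one] at this
  exact this

end Pool.Agent.Results.MP_1c7d4c_an.CondANotD
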